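import Mathlib

set_option autoImplicit false

/-!
# No locally and globally expanding `(a, b, c)`-regular graphs with `2 b ≤ 3 c + 3`

Let `G` be an `(a, b, c)`-regular graph such that `G` and its vertex links are connected (this follows
from spectral gaps) and `2 b ≤ 3 c + 3`. Then the diameter of `G` is at most `b + 1`, so the number of
vertices is bounded. The same holds if `a ≤ b + c + 3` and `a ≤ 2 b + 1`. If `3 b ≤ 4 c + 5`, then the
diameter is at most `2`.

Idea of the proof. As `2 b ≤ 3 c + 3`, the vertex links have diameter at most `2` (this step is the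
argument of the library for `G` with `2 a ≤ 3 b + 3`). So if `v`, `x` are two nonadjacent neighbours of
`u`, then they have a common neighbour `t` in the link of `u`, and they have at least `2 c - b + 2`
common neighbours in the link of the edge `u t`, which has `b` vertices. Hence `v`, `x` have at least
`k = 2 c - b + 3` common neighbours in the link of `u`. (If `a ≤ b + c + 3`, then `k = 2 b + 2 - a`
common neighbours exist since the link of `u` has only `a` vertices.)

Fix a vertex `r`. For an edge `u x` with `dist r u = n`, `dist r x = n + 1` let `α (u, x)` be the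
number of the common neighbours of `u` and `x` at distance `n` from `r`. Let `y` be a neighbour of `x`
at distance `n + 2`, `P` the set of the neighbours of `x` at distance `n` and `W` the set of the
common neighbours of `x` and `y` at distance `n + 1`, so `|W| = α (x, y)`. Every `p ∈ P` has at least
`k` neighbours in `W`. Every `w ∈ W` has at most `b - 1 - c` neighbours in `P`, since these are vertices
of the link of the edge `x w` which are not adjacent to the vertex `y` of this link. So
`k |P| ≤ (b - 1 - c) |W|`, and `|P| ≤ |W|`. As `|P| ≥ α (u, x) + 1`, it follows that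
`α (x, y) ≥ α (u, x) + 1`: the numbers `α` grow along geodesics from `r`, but they are at most `b`.
-/

namespace Pool.Agent.Results.MP_972ec5_co.DenseEdgeLinks

open Finset Classical

/-- the neighbours of `x` in `U` -/
noncomputable def nb {V : Type} (G : SimpleGraph V) (U : Finset V) (x : V) : Finset V :=
  U.filter fun y => G.Adj x y

/-- Variational form of: the second largest eigenvalue of the subgraph induced on `U`, which is
`d`-regular, is at most `d - ε`. -/
def Gap {V : Type} (G : SimpleGraph V) (U : Finset V) (d : ℕ) (ε : ℝ) : Prop :=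
  ∀ f : V → ℝ, ∑ x ∈ U, f x = 0 →
    ∑ x ∈ U, ∑ y ∈ nb G U x, f x * f y ≤ (d - ε) * ∑ x ∈ U, f x ^ 2

/-- `G` is `(a, b, c)`-regular: `G` is `a`-regular, the vertex links (induced on the neighbours of `v`)
are `b`-regular and the edge links (induced on the common neighbours of `v`, `u`) are `c`-regular. -/
structure IsRegular {V : Type} [Fintype V] (G : SimpleGraph V) (a b c : ℕ) : Prop where
  deg : ∀ v, (nb G univ v).card = a
  link : ∀ v u, G.Adj v u → (nb G (nb G univ v) u).card = b
  edge : ∀ v u w, G.Adj v u → G.Adj v w → G.Adj u w → (nb G (nb G (nb G univ v) u) w).card = c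

theorem closed_eq {V : Type} (G : SimpleGraph V) (U K : Finset V) (d : ℕ) (ε : ℝ) (hε : 0 < ε)
    (hreg : ∀ x ∈ U, (nb G U x).card = d) (hgap : Gap G U d ε) (hKU : K ⊆ U) (hK : K.Nonempty)
    (hcl : ∀ x ∈ K, ∀ y ∈ U, G.Adj x y → y ∈ K) : K = U := by
  have hU : (0 : ℝ) < U.card := by exact_mod_cast (hK.mono hKU).card_pos
  set t : ℝ := (K.card : ℝ) / U.card with ht
  let f : V → ℝ := fun x => (if x ∈ K then 1 else 0) - t
  have hf0 : ∑ x ∈ U, f x = 0 := by
    simp only [f]
    rw [Finset.sum_sub_distrib, Finset.sum_ite_mem, Finset.inter_eq_right.2 hKU, Finset.sum_const,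
      Finset.sum_const, nsmul_eq_mul, nsmul_eq_mul, ht]
    field_simp
    ring
  have h1 := hgap f hf0
  have h2 : ∑ x ∈ U, ∑ y ∈ nb G U x, f x * f y = (d : ℝ) * ∑ x ∈ U, f x ^ 2 := by
    rw [Finset.mul_sum]
    refine Finset.sum_congr rfl fun x hx => ?_
    have h3 : ∀ y ∈ nb G U x, f x * f y = f x ^ 2 := by
      intro y hy
      obtain ⟨hyU, hxy⟩ := Finset.mem_filter.1 hy
      have : (x ∈ K ↔ y ∈ K) := ⟨fun h => hcl x h y hyU hxy, fun h => hcl y h x hx hxy.symm⟩
      have e : f y = f x := by simp only [f, this]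
      rw [e]; ring
    rw [Finset.sum_congr rfl h3, Finset.sum_const, hreg x hx, nsmul_eq_mul]
  have h4 : ∑ x ∈ U, f x ^ 2 ≤ 0 := by
    rw [h2] at h1
    by_contra hc
    push Not at hc
    nlinarith
  have h5 : ∀ x ∈ U, f x = 0 := by
    intro x hx
    have h6 := Finset.single_le_sum (f := fun x => f x ^ 2) (fun i _ => sq_nonneg (f i)) hx
    have h7 : f x ^ 2 ≤ 0 := le_trans h6 h4
    exact pow_eq_zero_iff (two_ne_zero) |>.1 (le_antisymm h7 (sq_nonneg _))
  obtain ⟨x, hx⟩ := hK
  have h8 := h5 x (hKU hx)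
  simp only [f, hx, if_true] at h8
  refine hKU.antisymm fun y hy => ?_
  by_contra hyK
  have h9 := h5 y hy
  simp only [f, hyK, if_false] at h9
  linarith

/-- the ball of radius two -/
noncomputable def ball {V : Type} (G : SimpleGraph V) (U : Finset V) (v : V) : Finset V :=
  insert v (nb G U v ∪ (nb G U v).biUnion fun u => nb G U u)

/-- If the edge links are large compared with the numbers of vertices of an edge link which are not
adjacent to a third vertex, then the balls of radius two are everything. -/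
theorem ball_eq {V : Type} (G : SimpleGraph V) (U : Finset V) (p q s : ℕ) (ε : ℝ) (hε : 0 < ε)
    (hreg : ∀ x ∈ U, (nb G U x).card = p) (hgap : Gap G U p ε)
    (hedge : ∀ u ∈ U, ∀ x ∈ U, G.Adj u x → (nb G (nb G U u) x).card = q) (hs : 2 * s < q)
    (hcnt : ∀ u ∈ U, ∀ v ∈ U, ∀ x ∈ U, G.Adj u v → G.Adj u x → ¬ G.Adj v x → v ≠ x →
      ((nb G (nb G U u) x).filter fun z => ¬ G.Adj v z).card ≤ s) (v : V) (hv : v ∈ U) :
    ball G U v = U := by
  have hsub : ball G U v ⊆ U := by
    intro z hz
    rcases Finset.mem_insert.1 hz with rfl | hz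
    · exact hv
    rcases Finset.mem_union.1 hz with hz | hz
    · exact (Finset.mem_filter.1 hz).1
    · obtain ⟨u, -, hu⟩ := Finset.mem_biUnion.1 hz
      exact (Finset.mem_filter.1 hu).1
  refine closed_eq G U (ball G U v) p ε hε hreg hgap hsub (Finset.insert_nonempty _ _) ?_
  intro x hx0 y hyU hxy
  have hxU : x ∈ U := hsub hx0
  by_contra hy
  have hyv : y ≠ v := fun h => hy (h ▸ Finset.mem_insert_self _ _)
  have hy1 : ¬ G.Adj v y := fun h => hy (Finset.mem_insert_of_mem (Finset.mem_union_left _
    (Finset.mem_filter.2 ⟨hyU, h⟩)))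
  have hy2 : ∀ z ∈ U, G.Adj v z → ¬ G.Adj z y := fun z hzU h h' =>
    hy (Finset.mem_insert_of_mem (Finset.mem_union_right _ (Finset.mem_biUnion.2
      ⟨z, Finset.mem_filter.2 ⟨hzU, h⟩, Finset.mem_filter.2 ⟨hyU, h'⟩⟩)))
  rcases Finset.mem_insert.1 hx0 with rfl | hx
  · exact hy1 hxy
  rcases Finset.mem_union.1 hx with hx | hx
  · exact hy2 x hxU (Finset.mem_filter.1 hx).2 hxy
  obtain ⟨u, hu, hux'⟩ := Finset.mem_biUnion.1 hx
  have hvu : G.Adj v u := (Finset.mem_filter.1 hu).2
  have huU : u ∈ U := (Finset.mem_filter.1 hu).1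
  have hux : G.Adj u x := (Finset.mem_filter.1 hux').2
  have hvx : ¬ G.Adj v x := fun h => hy2 x hxU h hxy
  have hvx' : v ≠ x := by rintro rfl; exact hy1 hxy
  have huy : ¬ G.Adj u y := hy2 u huU hvu
  have huy' : y ≠ u := by rintro rfl; exact hy1 hvu
  have c1 := hcnt u huU v hv x hxU hvu.symm hux hvx hvx'
  have c2 := hcnt x hxU y hyU u huU hxy hux.symm (fun h => huy h.symm) huy'
  have hBB : nb G (nb G U x) u = nb G (nb G U u) x := by
    ext z
    simp only [nb, Finset.mem_filter]
    constructor
    · rintro ⟨⟨h1, h2⟩, h3⟩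
      exact ⟨⟨h1, h3⟩, h2⟩
    · rintro ⟨⟨h1, h2⟩, h3⟩
      exact ⟨⟨h1, h3⟩, h2⟩
  rw [hBB] at c2
  have hcov : nb G (nb G U u) x ⊆
      ((nb G (nb G U u) x).filter fun z => ¬ G.Adj v z) ∪
      ((nb G (nb G U u) x).filter fun z => ¬ G.Adj y z) := by
    intro z hz
    have hzU : z ∈ U := (Finset.mem_filter.1 (Finset.mem_filter.1 hz).1).1
    by_cases h : G.Adj v z
    · exact Finset.mem_union_right _ (Finset.mem_filter.2 ⟨hz, fun h' => hy2 z hzU h h'.symm⟩)
    · exact Finset.mem_union_left _ (Finset.mem_filter.2 ⟨hz, h⟩)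
  have c3 := (Finset.card_le_card hcov).trans (Finset.card_union_le _ _)
  rw [hedge u huU x hxU hux] at c3
  omega

/-- The count for the link of a vertex `u`, from the number of its vertices. -/
theorem cnt1 {V : Type} (G : SimpleGraph V) (U : Finset V) (p q : ℕ)
    (hreg : ∀ x ∈ U, (nb G U x).card = p)
    (hedge : ∀ u ∈ U, ∀ x ∈ U, G.Adj u x → (nb G (nb G U u) x).card = q)
    (u : V) (hu : u ∈ U) (v : V) (hv : v ∈ U) (x : V) (hx : x ∈ U)
    (huv : G.Adj u v) (hux : G.Adj u x) (hvx : ¬ G.Adj v x) (hne : v ≠ x) :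
    ((nb G (nb G U u) x).filter fun z => ¬ G.Adj v z).card + q + 2 ≤ p := by
  have hd : Disjoint (nb G (nb G U u) v)
      ((nb G (nb G U u) x).filter fun z => ¬ G.Adj v z) := by
    rw [Finset.disjoint_left]
    intro z h1 h2
    exact (Finset.mem_filter.1 h2).2 (Finset.mem_filter.1 h1).2
  have h1 : x ∉ (nb G (nb G U u) v) ∪
      ((nb G (nb G U u) x).filter fun z => ¬ G.Adj v z) := by
    intro h
    rcases Finset.mem_union.1 h with h | h
    · exact hvx (Finset.mem_filter.1 h).2
    · exact G.loopless.irrefl x (Finset.mem_filter.1 (Finset.mem_filter.1 h).1).2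
  have h2 : v ∉ insert x ((nb G (nb G U u) v) ∪
      ((nb G (nb G U u) x).filter fun z => ¬ G.Adj v z)) := by
    intro h
    rcases Finset.mem_insert.1 h with h | h
    · exact hne h
    rcases Finset.mem_union.1 h with h | h
    · exact G.loopless.irrefl v (Finset.mem_filter.1 h).2
    · exact hvx (Finset.mem_filter.1 (Finset.mem_filter.1 h).1).2.symm
  have h3 : insert v (insert x ((nb G (nb G U u) v) ∪
      ((nb G (nb G U u) x).filter fun z => ¬ G.Adj v z))) ⊆ nb G U u := by
    intro z hz
    rcases Finset.mem_insert.1 hz with rfl | hz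
    · exact Finset.mem_filter.2 ⟨hv, huv⟩
    rcases Finset.mem_insert.1 hz with rfl | hz
    · exact Finset.mem_filter.2 ⟨hx, hux⟩
    rcases Finset.mem_union.1 hz with hz | hz
    · exact (Finset.mem_filter.1 hz).1
    · exact (Finset.mem_filter.1 (Finset.mem_filter.1 hz).1).1
  have h4 := Finset.card_le_card h3
  rw [Finset.card_insert_of_notMem h2, Finset.card_insert_of_notMem h1,
    Finset.card_union_of_disjoint hd, hedge u hu v hv huv, hreg u hu] at h4
  omega

/-- The vertex links have diameter at most two. -/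
theorem link_ball {V : Type} [Fintype V] (G : SimpleGraph V) (a b c : ℕ) (h : 2 * b ≤ 3 * c + 3)
    (hG : IsRegular G a b c) (ε : ℝ) (hε : 0 < ε) (hL : ∀ v, Gap G (nb G univ v) b ε)
    (u v x : V) (huv : G.Adj u v) (hux : G.Adj u x) (hvx : ¬ G.Adj v x) (hne : v ≠ x) :
    ∃ t, G.Adj u t ∧ G.Adj v t ∧ G.Adj t x := by
  have hreg : ∀ y ∈ nb G univ u, (nb G (nb G univ u) y).card = b := fun y hy =>
    hG.link u y (Finset.mem_filter.1 hy).2
  have hedge : ∀ y ∈ nb G univ u, ∀ z ∈ nb G univ u, G.Adj y z →
      (nb G (nb G (nb G univ u) y) z).card = c := fun y hy z hz hyz =>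
    hG.edge u y z (Finset.mem_filter.1 hy).2 (Finset.mem_filter.1 hz).2 hyz
  have hvN : v ∈ nb G univ u := Finset.mem_filter.2 ⟨Finset.mem_univ _, huv⟩
  have hxN : x ∈ nb G univ u := Finset.mem_filter.2 ⟨Finset.mem_univ _, hux⟩
  have hball : x ∈ ball G (nb G univ u) v := by
    rcases Nat.lt_or_ge (2 * (b - (c + 2))) c with hlt | hge
    · rw [ball_eq G (nb G univ u) b c (b - (c + 2)) ε hε hreg (hL u) hedge hlt
        (fun y hy w hw z hz h1 h2 h3 h4 => by
          have := cnt1 G (nb G univ u) b c hreg hedge y hy w hw z hz h1 h2 h3 h4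
          omega) v hvN]
      exact hxN
    · -- then `c = 0` and `b ≤ 1`
      exfalso
      have hc0 : c = 0 := by omega
      have hb1 : b ≤ 1 := by omega
      -- the link is a union of edges or of points, and it is connected
      have hK : insert v (nb G (nb G univ u) v) = nb G univ u := by
        refine closed_eq G _ _ b ε hε hreg (hL u) ?_ (Finset.insert_nonempty _ _) ?_
        · exact Finset.insert_subset hvN (Finset.filter_subset _ _)
        · intro y hy z hz hyz
          rcases Finset.mem_insert.1 hy with rfl | hy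
          · exact Finset.mem_insert_of_mem (Finset.mem_filter.2 ⟨hz, hyz⟩)
          · obtain ⟨hyN, hvy⟩ := Finset.mem_filter.1 hy
            have h1 : (nb G (nb G univ u) y).card ≤ 1 := by rw [hreg y hyN]; exact hb1
            have h2 := Finset.card_le_one.1 h1 z (Finset.mem_filter.2 ⟨hz, hyz⟩) v
              (Finset.mem_filter.2 ⟨hvN, hvy.symm⟩)
            rw [h2]
            exact Finset.mem_insert_self _ _
      rw [← hK] at hxN
      rcases Finset.mem_insert.1 hxN with h1 | h1
      · exact hne h1.symm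
      · exact hvx (Finset.mem_filter.1 h1).2
  rcases Finset.mem_insert.1 hball with h1 | h1
  · exact absurd h1.symm hne
  rcases Finset.mem_union.1 h1 with h1 | h1
  · exact absurd (Finset.mem_filter.1 h1).2 hvx
  · obtain ⟨t, ht, hx⟩ := Finset.mem_biUnion.1 h1
    obtain ⟨htN, hvt⟩ := Finset.mem_filter.1 ht
    exact ⟨t, (Finset.mem_filter.1 htN).2, hvt, (Finset.mem_filter.1 hx).2⟩

/-- The count for the link of an edge, from the edge links. -/
theorem cnt2 {V : Type} [Fintype V] (G : SimpleGraph V) (a b c : ℕ) (h : 2 * b ≤ 3 * c + 3)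
    (hG : IsRegular G a b c) (ε : ℝ) (hε : 0 < ε) (hL : ∀ v, Gap G (nb G univ v) b ε)
    (u v x : V) (huv : G.Adj u v) (hux : G.Adj u x) (hvx : ¬ G.Adj v x) (hne : v ≠ x) :
    ((nb G (nb G univ u) x).filter fun z => ¬ G.Adj v z).card + 2 * c + 3 ≤ 2 * b := by
  obtain ⟨t, hut, hvt, htx⟩ := link_ball G a b c h hG ε hε hL u v x huv hux hvx hne
  set T := nb G (nb G univ u) t with hT
  have hvT : v ∈ T := Finset.mem_filter.2 ⟨Finset.mem_filter.2 ⟨Finset.mem_univ _, huv⟩, hvt.symm⟩
  have hxT : x ∈ T := Finset.mem_filter.2 ⟨Finset.mem_filter.2 ⟨Finset.mem_univ _, hux⟩, htx⟩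
  have hTc : T.card = b := hG.link u t hut
  have h1 : (nb G T v).card = c := hG.edge u t v hut huv hvt.symm
  have h2 : (nb G T x).card = c := hG.edge u t x hut hux htx
  -- common neighbours in `T`
  have h3 : nb G T v ∪ nb G T x ⊆ (T.erase v).erase x := by
    intro z hz
    rw [Finset.mem_erase, Finset.mem_erase]
    rcases Finset.mem_union.1 hz with hz | hz
    · obtain ⟨hzT, hvz⟩ := Finset.mem_filter.1 hz
      exact ⟨fun h => hvx (h ▸ hvz), hvz.ne', hzT⟩
    · obtain ⟨hzT, hxz⟩ := Finset.mem_filter.1 hz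
      exact ⟨hxz.ne', fun h => hvx (h ▸ hxz).symm, hzT⟩
  have h4 := Finset.card_le_card h3
  have hxT' : x ∈ T.erase v := Finset.mem_erase.2 ⟨hne.symm, hxT⟩
  rw [Finset.card_erase_of_mem hxT', Finset.card_erase_of_mem hvT, hTc] at h4
  have h5 := Finset.card_union_add_card_inter (nb G T v) (nb G T x)
  rw [h1, h2] at h5
  -- the neighbours of `v` in the link of `u x`
  have htI : t ∉ nb G T v ∩ nb G T x := by
    intro h
    have := (Finset.mem_filter.1 (Finset.mem_inter.1 h).1).1
    exact G.loopless.irrefl t (Finset.mem_filter.1 this).2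
  have h6 : insert t (nb G T v ∩ nb G T x) ⊆
      (nb G (nb G univ u) x).filter fun z => G.Adj v z := by
    intro z hz
    rcases Finset.mem_insert.1 hz with rfl | hz
    · exact Finset.mem_filter.2 ⟨Finset.mem_filter.2 ⟨Finset.mem_filter.2 ⟨Finset.mem_univ _, hut⟩,
        htx.symm⟩, hvt⟩
    · obtain ⟨hz1, hz2⟩ := Finset.mem_inter.1 hz
      obtain ⟨hzT, hvz⟩ := Finset.mem_filter.1 hz1
      exact Finset.mem_filter.2 ⟨Finset.mem_filter.2 ⟨(Finset.mem_filter.1 hzT).1,
        (Finset.mem_filter.1 hz2).2⟩, hvz⟩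
  have h7 := Finset.card_le_card h6
  rw [Finset.card_insert_of_notMem htI] at h7
  have h8 := Finset.card_filter_add_card_filter_not (s := nb G (nb G univ u) x) (fun z => G.Adj v z)
  rw [hG.link u x hux] at h8
  have hb2 : 2 ≤ b := by
    rw [← hTc]
    exact Finset.one_lt_card.2 ⟨v, hvT, x, hxT, hne⟩
  omega

/-- Let `G` be an `(a, b, c)`-regular graph with `3 b ≤ 4 c + 5` and with spectral gaps in `G` and in all
vertex links. Then `G` has at most `a² + a + 1` vertices. -/
theorem bound {V : Type} [Fintype V] (G : SimpleGraph V) (a b c : ℕ) (h : 3 * b ≤ 4 * c + 5)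
    (hG : IsRegular G a b c) (ε : ℝ) (hε : 0 < ε) (hgap : Gap G univ a ε)
    (hL : ∀ v, Gap G (nb G univ v) b ε) : Fintype.card V ≤ a ^ 2 + a + 1 := by
  have h' : 2 * b ≤ 3 * c + 3 := by omega
  rcases isEmpty_or_nonempty V with hV | ⟨⟨v⟩⟩
  · simp
  have hcard : (ball G univ v).card ≤ a ^ 2 + a + 1 := by
    have h2 : ((nb G univ v).biUnion fun u => nb G univ u).card ≤ a * a := by
      refine Finset.card_biUnion_le.trans ?_
      rw [Finset.sum_congr rfl fun u _ => hG.deg u, Finset.sum_const, hG.deg v, smul_eq_mul]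
    have h3 := Finset.card_insert_le v
      (nb G univ v ∪ (nb G univ v).biUnion fun u => nb G univ u)
    have h4 := Finset.card_union_le (nb G univ v) ((nb G univ v).biUnion fun u => nb G univ u)
    rw [hG.deg v] at h4
    unfold ball
    nlinarith
  rcases Nat.lt_or_ge (2 * (2 * b - (2 * c + 3))) b with hlt | hge
  · have hK := ball_eq G univ a b (2 * b - (2 * c + 3)) ε hε (fun x _ => hG.deg x) hgap
      (fun u _ x _ hux => hG.link u x hux) hlt (fun u _ v _ x _ h1 h2 h3 h4 => by
        have := cnt2 G a b c h' hG ε hε hL u v x h1 h2 h3 h4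
        omega) v (Finset.mem_univ _)
    rw [← Finset.card_univ, ← hK]
    exact hcard
  · -- then `b = 0`, so there are no triangles and the links have one vertex
    have hb0 : b = 0 := by omega
    have hK : insert v (nb G univ v) = univ := by
      refine closed_eq G univ _ a ε hε (fun x _ => hG.deg x) hgap (Finset.subset_univ _)
        (Finset.insert_nonempty _ _) ?_
      intro x hx y _ hxy
      rcases Finset.mem_insert.1 hx with rfl | hx
      · exact Finset.mem_insert_of_mem (Finset.mem_filter.2 ⟨Finset.mem_univ _, hxy⟩)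
      · have hvx : G.Adj v x := (Finset.mem_filter.1 hx).2
        by_contra hy
        have hyv : v ≠ y := fun h => hy (h ▸ Finset.mem_insert_self _ _)
        have hvy : ¬ G.Adj v y := fun h => hy (Finset.mem_insert_of_mem
          (Finset.mem_filter.2 ⟨Finset.mem_univ _, h⟩))
        obtain ⟨t, hxt, hvt, hty⟩ := link_ball G a b c h' hG ε hε hL x v y hvx.symm hxy hvy hyv
        have h1 : t ∈ nb G (nb G univ x) v :=
          Finset.mem_filter.2 ⟨Finset.mem_filter.2 ⟨Finset.mem_univ _, hxt⟩, hvt⟩
        have h2 := hG.link x v hvx.symm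
        rw [hb0, Finset.card_eq_zero] at h2
        rw [h2] at h1
        exact absurd h1 (Finset.notMem_empty _)
    have h1 := congrArg Finset.card hK
    rw [Finset.card_univ] at h1
    rw [← h1]
    refine (Finset.card_insert_le _ _).trans ?_
    rw [hG.deg v]
    nlinarith

/-- Any two nonadjacent vertices of a vertex link have at least `k` common neighbours in the link. -/
def Common {V : Type} [Fintype V] (G : SimpleGraph V) (k : ℕ) : Prop :=
  ∀ u v x, G.Adj u v → G.Adj u x → ¬ G.Adj v x → v ≠ x →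
    k ≤ ((nb G (nb G univ u) x).filter fun z => G.Adj v z).card

theorem common_edge {V : Type} [Fintype V] (G : SimpleGraph V) (a b c : ℕ) (h : 2 * b ≤ 3 * c + 3)
    (hG : IsRegular G a b c) (ε : ℝ) (hε : 0 < ε) (hL : ∀ v, Gap G (nb G univ v) b ε) :
    Common G (2 * c + 3 - b) := by
  intro u v x huv hux hvx hne
  have h1 := cnt2 G a b c h hG ε hε hL u v x huv hux hvx hne
  have h2 := Finset.card_filter_add_card_filter_not (s := nb G (nb G univ u) x) (fun z => G.Adj v z)
  rw [hG.link u x hux] at h2
  omega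

theorem common_link {V : Type} [Fintype V] (G : SimpleGraph V) (a b c : ℕ)
    (hG : IsRegular G a b c) : Common G (2 * b + 2 - a) := by
  intro u v x huv hux hvx hne
  have h1 := cnt1 G univ a b (fun y _ => hG.deg y) (fun y _ z _ hyz => hG.link y z hyz) u
    (Finset.mem_univ _) v (Finset.mem_univ _) x (Finset.mem_univ _) huv hux hvx hne
  have h2 := Finset.card_filter_add_card_filter_not (s := nb G (nb G univ u) x) (fun z => G.Adj v z)
  rw [hG.link u x hux] at h2
  omega

theorem connected {V : Type} [Fintype V] (G : SimpleGraph V) (a : ℕ)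
    (ha : ∀ v, (nb G univ v).card = a) (ε : ℝ) (hε : 0 < ε) (hgap : Gap G univ a ε) (r : V) :
    G.Connected := by
  have hK : (univ.filter fun x => G.Reachable r x) = univ := by
    refine closed_eq G univ _ a ε hε (fun x _ => ha x) hgap (Finset.subset_univ _)
      ⟨r, Finset.mem_filter.2 ⟨Finset.mem_univ _, SimpleGraph.Reachable.refl r⟩⟩ ?_
    intro x hx y _ hxy
    exact Finset.mem_filter.2 ⟨Finset.mem_univ _, (Finset.mem_filter.1 hx).2.trans hxy.reachable⟩
  rw [SimpleGraph.connected_iff_exists_forall_reachable]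
  refine ⟨r, fun x => ?_⟩
  have : x ∈ (univ.filter fun x => G.Reachable r x) := by rw [hK]; exact Finset.mem_univ _
  exact (Finset.mem_filter.1 this).2

theorem pred {V : Type} (G : SimpleGraph V) (hG : G.Connected) (r x : V) (n : ℕ)
    (h : G.dist r x = n + 1) : ∃ u, G.Adj u x ∧ G.dist r u = n := by
  obtain ⟨p, hp⟩ := hG.exists_walk_length_eq_dist x r
  rw [SimpleGraph.dist_comm, h] at hp
  cases p with
  | nil => simp at hp
  | @cons _ u _ hxu q =>
    rw [SimpleGraph.Walk.length_cons] at hp
    have h1 : G.dist u r ≤ q.length := SimpleGraph.dist_le q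
    rw [SimpleGraph.dist_comm] at h1
    refine ⟨u, hxu.symm, ?_⟩
    rcases hxu.symm.diff_dist_adj (u := r) with h2 | h2 | h2 <;> omega

/-- The number of the common neighbours of `u` and `x` at distance `n` grows along a geodesic. -/
theorem step {V : Type} [Fintype V] (G : SimpleGraph V) (a b c k : ℕ) (hk1 : 1 ≤ k)
    (hk : b ≤ k + c + 1) (hG : IsRegular G a b c) (hcom : Common G k) (r u x y : V)
    (n : ℕ) (hux : G.Adj u x) (hxy : G.Adj x y) (hu : G.dist r u = n) (hx : G.dist r x = n + 1)
    (hy : G.dist r y = n + 2) :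
    ((nb G (nb G univ u) x).filter fun z => G.dist r z = n).card + 1 ≤
      ((nb G (nb G univ x) y).filter fun z => G.dist r z = n + 1).card := by
  set P := (nb G univ x).filter fun z => G.dist r z = n with hP
  set W := (nb G (nb G univ x) y).filter fun z => G.dist r z = n + 1 with hW
  have h1 : ((nb G (nb G univ u) x).filter fun z => G.dist r z = n).card + 1 ≤ P.card := by
    have hnot : u ∉ (nb G (nb G univ u) x).filter fun z => G.dist r z = n := by
      intro h
      exact G.loopless.irrefl u
        (Finset.mem_filter.1 (Finset.mem_filter.1 (Finset.mem_filter.1 h).1).1).2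
    rw [← Finset.card_insert_of_notMem hnot]
    refine Finset.card_le_card fun z hz => ?_
    rcases Finset.mem_insert.1 hz with rfl | hz
    · exact Finset.mem_filter.2 ⟨Finset.mem_filter.2 ⟨Finset.mem_univ _, hux.symm⟩, hu⟩
    · obtain ⟨hz1, hz2⟩ := Finset.mem_filter.1 hz
      exact Finset.mem_filter.2 ⟨Finset.mem_filter.2 ⟨Finset.mem_univ _,
        (Finset.mem_filter.1 hz1).2⟩, hz2⟩
  have hPy : ∀ p ∈ P, ¬ G.Adj p y ∧ p ≠ y := by
    intro p hp
    have hpn := (Finset.mem_filter.1 hp).2
    constructor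
    · intro h
      rcases h.diff_dist_adj (u := r) with h2 | h2 | h2 <;> omega
    · rintro rfl
      omega
  have h2 : P.card * k ≤ W.card * (b - 1 - c) := by
    refine Finset.card_mul_le_card_mul (fun p w => G.Adj p w) (fun p hp => ?_) (fun w hw => ?_)
    · obtain ⟨hp1, hp2⟩ := Finset.mem_filter.1 hp
      have hxp : G.Adj x p := (Finset.mem_filter.1 hp1).2
      refine (hcom x p y hxp hxy (hPy p hp).1 (hPy p hp).2).trans (Finset.card_le_card fun z hz => ?_)
      obtain ⟨hz1, hz2⟩ := Finset.mem_filter.1 hz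
      refine Finset.mem_filter.2 ⟨Finset.mem_filter.2 ⟨hz1, ?_⟩, hz2⟩
      have hyz : G.Adj y z := (Finset.mem_filter.1 hz1).2
      rcases hz2.diff_dist_adj (u := r) with h3 | h3 | h3 <;>
        rcases hyz.diff_dist_adj (u := r) with h4 | h4 | h4 <;> omega
    · obtain ⟨hw1, hw2⟩ := Finset.mem_filter.1 hw
      obtain ⟨hw3, hyw⟩ := Finset.mem_filter.1 hw1
      have hxw : G.Adj x w := (Finset.mem_filter.1 hw3).2
      set T := nb G (nb G univ x) w with hT
      have hTc : T.card = b := hG.link x w hxw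
      have hTy : (nb G T y).card = c := hG.edge x w y hxw hxy hyw.symm
      have hyT : y ∈ T := Finset.mem_filter.2 ⟨Finset.mem_filter.2 ⟨Finset.mem_univ _, hxy⟩,
        hyw.symm⟩
      have hd : Disjoint (nb G T y) (P.bipartiteBelow (fun p w => G.Adj p w) w) := by
        rw [Finset.disjoint_left]
        intro z hz1 hz2
        exact (hPy z (Finset.mem_filter.1 hz2).1).1 (Finset.mem_filter.1 hz1).2.symm
      have hny : y ∉ nb G T y ∪ P.bipartiteBelow (fun p w => G.Adj p w) w := by
        intro h
        rcases Finset.mem_union.1 h with h | h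
        · exact G.loopless.irrefl y (Finset.mem_filter.1 h).2
        · exact (hPy y (Finset.mem_filter.1 h).1).2 rfl
      have hsub : insert y (nb G T y ∪ P.bipartiteBelow (fun p w => G.Adj p w) w) ⊆ T := by
        intro z hz
        rcases Finset.mem_insert.1 hz with rfl | hz
        · exact hyT
        rcases Finset.mem_union.1 hz with hz | hz
        · exact (Finset.mem_filter.1 hz).1
        · obtain ⟨hz1, hz2⟩ := Finset.mem_filter.1 hz
          exact Finset.mem_filter.2 ⟨(Finset.mem_filter.1 hz1).1, SimpleGraph.Adj.symm hz2⟩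
      have h3 := Finset.card_le_card hsub
      rw [Finset.card_insert_of_notMem hny, Finset.card_union_of_disjoint hd, hTc, hTy] at h3
      omega
  have h3 : W.card * (b - 1 - c) ≤ W.card * k := Nat.mul_le_mul_left _ (by omega)
  have h4 : P.card ≤ W.card := Nat.le_of_mul_le_mul_right (h2.trans h3) hk1
  omega

theorem growth {V : Type} [Fintype V] (G : SimpleGraph V) (a b c k : ℕ) (hk1 : 1 ≤ k)
    (hk : b ≤ k + c + 1) (hG : IsRegular G a b c) (hcom : Common G k) (hconn : G.Connected) (r : V)
    (n : ℕ) : ∀ x, G.dist r x = n + 1 → ∀ u, G.Adj u x → G.dist r u = n →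
      n ≤ ((nb G (nb G univ u) x).filter fun z => G.dist r z = n).card := by
  induction n with
  | zero => exact fun _ _ _ _ _ => Nat.zero_le _
  | succ n ih =>
    intro y hy x hxy hx
    obtain ⟨u, hux, hu⟩ := pred G hconn r x n hx
    exact (Nat.succ_le_succ (ih x hx u hux hu)).trans
      (step G a b c k hk1 hk hG hcom r u x y n hux hxy hu hx hy)

/-- The distances are at most `b + 1`. -/
theorem dist_le {V : Type} [Fintype V] (G : SimpleGraph V) (a b c k : ℕ) (hk1 : 1 ≤ k)
    (hk : b ≤ k + c + 1) (hG : IsRegular G a b c) (hcom : Common G k) (hconn : G.Connected)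
    (r x : V) : G.dist r x ≤ b + 1 := by
  rcases hn : G.dist r x with _ | n
  · omega
  · obtain ⟨u, hux, hu⟩ := pred G hconn r x n hn
    have h1 := growth G a b c k hk1 hk hG hcom hconn r n x hn u hux hu
    have h2 := Finset.card_filter_le (nb G (nb G univ u) x) (fun z => G.dist r z = n)
    rw [hG.link u x hux] at h2
    omega

theorem card_le {V : Type} [Fintype V] (G : SimpleGraph V) (a D : ℕ)
    (ha : ∀ v, (nb G univ v).card = a) (hconn : G.Connected) (r : V)
    (hD : ∀ x, G.dist r x ≤ D) : Fintype.card V ≤ ∑ i ∈ Finset.range (D + 1), a ^ i := by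
  have hL : ∀ i, (univ.filter fun x => G.dist r x = i).card ≤ a ^ i := by
    intro i
    induction i with
    | zero =>
      rw [pow_zero, Finset.card_le_one]
      intro x hx y hy
      have h1 := hconn.dist_eq_zero_iff.1 (Finset.mem_filter.1 hx).2
      have h2 := hconn.dist_eq_zero_iff.1 (Finset.mem_filter.1 hy).2
      rw [← h1, ← h2]
    | succ i ih =>
      have h1 : (univ.filter fun x => G.dist r x = i + 1) ⊆
          (univ.filter fun x => G.dist r x = i).biUnion fun u => nb G univ u := by
        intro x hx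
        obtain ⟨u, hux, hu⟩ := pred G hconn r x i (Finset.mem_filter.1 hx).2
        exact Finset.mem_biUnion.2 ⟨u, Finset.mem_filter.2 ⟨Finset.mem_univ _, hu⟩,
          Finset.mem_filter.2 ⟨Finset.mem_univ _, hux⟩⟩
      refine (Finset.card_le_card h1).trans (Finset.card_biUnion_le.trans ?_)
      rw [Finset.sum_congr rfl fun u _ => ha u, Finset.sum_const, smul_eq_mul, pow_succ]
      exact Nat.mul_le_mul_right _ ih
  have h2 : (univ : Finset V) ⊆ (Finset.range (D + 1)).biUnion
      fun i => univ.filter fun x => G.dist r x = i := by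
    intro x _
    exact Finset.mem_biUnion.2 ⟨G.dist r x, Finset.mem_range.2 (Nat.lt_succ_of_le (hD x)),
      Finset.mem_filter.2 ⟨Finset.mem_univ _, rfl⟩⟩
  rw [← Finset.card_univ]
  exact (Finset.card_le_card h2).trans (Finset.card_biUnion_le.trans
    (Finset.sum_le_sum fun i _ => hL i))

theorem main {V : Type} [Fintype V] (G : SimpleGraph V) (a b c k : ℕ) (hk1 : 1 ≤ k)
    (hk : b ≤ k + c + 1) (hG : IsRegular G a b c) (hcom : Common G k) (ε : ℝ) (hε : 0 < ε)
    (hgap : Gap G univ a ε) : (∀ x y, ∃ p : G.Walk x y, p.length ≤ b + 1) ∧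
      Fintype.card V ≤ ∑ i ∈ Finset.range (b + 2), a ^ i := by
  constructor
  · intro x y
    have hconn := connected G a hG.deg ε hε hgap x
    obtain ⟨p, hp⟩ := hconn.exists_walk_length_eq_dist x y
    exact ⟨p, hp.trans_le (dist_le G a b c k hk1 hk hG hcom hconn x y)⟩
  · rcases isEmpty_or_nonempty V with hV | ⟨⟨r⟩⟩
    · simp
    have hconn := connected G a hG.deg ε hε hgap r
    exact card_le G a (b + 1) hG.deg hconn r (dist_le G a b c k hk1 hk hG hcom hconn r)

/-- There is a locally and globally expanding sequence of `(a, b, c)`-regular graphs the numbers of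
whose vertices tend to infinity. -/
def HasExpandingSequence (a b c : ℕ) : Prop :=
  ∃ (V : ℕ → Type) (_ : ∀ n, Fintype (V n)) (G : ∀ n, SimpleGraph (V n)) (ε : ℝ), 0 < ε ∧
    (∀ n, IsRegular (G n) a b c) ∧ (∀ n, Gap (G n) univ a ε) ∧
    (∀ n v, Gap (G n) (nb (G n) univ v) b ε) ∧
    (∀ n v u, (G n).Adj v u → Gap (G n) (nb (G n) (nb (G n) univ v) u) c ε) ∧
    Filter.Tendsto (fun n => Fintype.card (V n)) Filter.atTop Filter.atTop

/-- Let `G` be an `(a, b, c)`-regular graph with a spectral gap.
(1) If `2 b ≤ 3 c + 3` and all vertex links have spectral gaps, then the diameter of `G` is at most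
`b + 1`, and `G` has at most `1 + a + … + a ^ (b + 1)` vertices.
(2) The same holds if `a ≤ b + c + 3` and `a ≤ 2 b + 1`, for arbitrary vertex links.
(3) If `3 b ≤ 4 c + 5` and all vertex links have spectral gaps, then `G` has at most `a² + a + 1`
vertices.
(4) If `c < b` and `2 b ≤ 3 c + 3` or `a ≤ b + c + 3`, then there is no locally and globally
expanding sequence of `(a, b, c)`-regular graphs. -/
theorem result (a b c : ℕ) :
    (2 * b ≤ 3 * c + 3 → ∀ (V : Type) [Fintype V] (G : SimpleGraph V) (ε : ℝ), IsRegular G a b c →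
      0 < ε → Gap G univ a ε → (∀ v, Gap G (nb G univ v) b ε) →
      (∀ x y, ∃ p : G.Walk x y, p.length ≤ b + 1) ∧
        Fintype.card V ≤ ∑ i ∈ Finset.range (b + 2), a ^ i) ∧
    (a ≤ b + c + 3 → a ≤ 2 * b + 1 → ∀ (V : Type) [Fintype V] (G : SimpleGraph V) (ε : ℝ),
      IsRegular G a b c → 0 < ε → Gap G univ a ε →
      (∀ x y, ∃ p : G.Walk x y, p.length ≤ b + 1) ∧
        Fintype.card V ≤ ∑ i ∈ Finset.range (b + 2), a ^ i) ∧
    (3 * b ≤ 4 * c + 5 → ∀ (V : Type) [Fintype V] (G : SimpleGraph V) (ε : ℝ), IsRegular G a b c →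
      0 < ε → Gap G univ a ε → (∀ v, Gap G (nb G univ v) b ε) →
      Fintype.card V ≤ a ^ 2 + a + 1) ∧
    (c < b → (2 * b ≤ 3 * c + 3 ∨ a ≤ b + c + 3) → ¬ HasExpandingSequence a b c) := by
  have r1 : 2 * b ≤ 3 * c + 3 → ∀ (V : Type) [Fintype V] (G : SimpleGraph V) (ε : ℝ),
      IsRegular G a b c → 0 < ε → Gap G univ a ε → (∀ v, Gap G (nb G univ v) b ε) →
      (∀ x y, ∃ p : G.Walk x y, p.length ≤ b + 1) ∧
        Fintype.card V ≤ ∑ i ∈ Finset.range (b + 2), a ^ i := by
    intro h V _ G ε hG hε hgap hL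
    exact main G a b c (2 * c + 3 - b) (by omega) (by omega) hG (common_edge G a b c h hG ε hε hL)
      ε hε hgap
  have r2 : a ≤ b + c + 3 → a ≤ 2 * b + 1 → ∀ (V : Type) [Fintype V] (G : SimpleGraph V) (ε : ℝ),
      IsRegular G a b c → 0 < ε → Gap G univ a ε →
      (∀ x y, ∃ p : G.Walk x y, p.length ≤ b + 1) ∧
        Fintype.card V ≤ ∑ i ∈ Finset.range (b + 2), a ^ i := by
    intro h h' V _ G ε hG hε hgap
    exact main G a b c (2 * b + 2 - a) (by omega) (by omega) hG (common_link G a b c hG) ε hε hgap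
  refine ⟨r1, r2, fun h V _ G ε hG hε h1 h2 => bound G a b c h hG ε hε h1 h2, ?_⟩
  rintro hcb hor ⟨V, hV, G, ε, hε, hG, h1, h2, -, h3⟩
  obtain ⟨n, hn⟩ := (h3.eventually_gt_atTop (∑ i ∈ Finset.range (b + 2), a ^ i)).exists
  by_cases hA : 2 * b ≤ 3 * c + 3
  · exact absurd (r1 hA (V n) (G n) ε (hG n) hε (h1 n) (h2 n)).2 (not_le.2 hn)
  · have hB : a ≤ b + c + 3 := hor.resolve_left hA
    exact absurd (r2 hB (by omega) (V n) (G n) ε (hG n) hε (h1 n)).2 (not_le.2 hn)

end Pool.Agent.Results.MP_972ec5_co.DenseEdgeLinks
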